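import Pool.Agent.H211.AD.Stm5

/-!
# Orbits in the interior of `K` stay away from the frontier (`S_DEEP` from `S_NOCR`, `S_SHRINK`)
-/

set_option autoImplicit false

open Metric Set MeasureTheory Filter Topology

namespace Pool.Agent.H348.AD211

open Pool.Agent.H211.AD

variable {f : ℂ → ℂ} {U K : Set ℂ} {Cr : Finset ℂ} {ℓ : ℂ → ℕ} {δ₀ Cp rp c₀ μ : ℝ}

theorem K_subset_U (S : Sys f U K Cr ℓ δ₀ Cp rp c₀ μ) : K ⊆ U :=
  (self_subset_cthickening K).trans S.thick

theorem iter_mem (S : Sys f U K Cr ℓ δ₀ Cp rp c₀ μ) {z : ℂ} (hz : z ∈ K) (n : ℕ) :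
    f^[n] z ∈ K := by
  induction n with
  | zero => simpa using hz
  | succ n ih => rw [Function.iterate_succ_apply']; exact S.fwd _ ih

theorem iter_int (h : ∀ z ∈ interior K, f z ∈ interior K) {z : ℂ} (hz : z ∈ interior K) (n : ℕ) :
    f^[n] z ∈ interior K := by
  induction n with
  | zero => simpa using hz
  | succ n ih => rw [Function.iterate_succ_apply']; exact h _ ih

theorem iter_cont (S : Sys f U K Cr ℓ δ₀ Cp rp c₀ μ) {z : ℂ} (hz : z ∈ K) (n : ℕ) :
    ContinuousAt f^[n] z := by
  induction n with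
  | zero => exact continuousAt_id
  | succ n ih =>
    rw [Function.iterate_succ']
    have h1 : f^[n] z ∈ U := K_subset_U S (iter_mem S hz n)
    exact ContinuousAt.comp (S.diff.differentiableAt (S.openU.mem_nhds h1)).continuousAt ih

/-- the branch on `ball w d`, where `ball w d ⊆ interior K` -/
theorem branch (S : Sys f U K Cr ℓ δ₀ Cp rp c₀ μ)
    (h2 : ∀ z ∈ interior K, deriv f z ≠ 0) (h3 : ∀ z ∈ interior K, f z ∈ interior K)
    (h4 : ∀ z ∈ U, f z ∈ interior K → z ∈ interior K) {z : ℂ} (hz : z ∈ interior K) (n : ℕ)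
    {d : ℝ} (hd : 0 < d) (hb : ball (f^[n] z) d ⊆ interior K) :
    ∀ j ≤ n, ∃ g : ℂ → ℂ, DifferentiableOn ℂ g (ball (f^[n] z) d) ∧
      g (f^[n] z) = f^[n - j] z ∧ ∀ x ∈ ball (f^[n] z) d, g x ∈ interior K ∧ f^[j] (g x) = x := by
  intro j
  induction j with
  | zero =>
    intro _
    exact ⟨id, differentiableOn_id, by simp, fun x hx => ⟨hb hx, by simp⟩⟩
  | succ j ih =>
    intro hj
    obtain ⟨g, g1, g2, g3⟩ := ih (by omega)
    have hz₀ : f^[n - (j + 1)] z ∈ interior K := iter_int h3 hz _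
    have e1 : n - j = (n - (j + 1)) + 1 := by omega
    obtain ⟨G, G1, G2, G3⟩ := S.lift g (f^[n] z) d hd g1
      (fun x hx => self_subset_cthickening K (interior_subset (g3 x hx).1))
      (by
        rintro y hy ⟨x, hx, hxy⟩
        exact h2 y (h4 y hy (hxy ▸ (g3 x hx).1)))
      (f^[n - (j + 1)] z) (K_subset_U S (interior_subset hz₀))
      (by rw [g2, e1, Function.iterate_succ_apply'])
    refine ⟨G, G1, G2, fun x hx => ?_⟩
    have h5 := G3 x hx
    refine ⟨h4 _ h5.1 (h5.2 ▸ (g3 x hx).1), ?_⟩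
    rw [Function.iterate_succ_apply, h5.2]
    exact (g3 x hx).2

theorem t_DEEP (hN : S_NOCR) (hS : S_SHRINK) : S_DEEP := by
  intro f U K Cr ℓ δ₀ Cp rp c₀ μ S
  obtain ⟨-, h2, h3, h4, -⟩ := hN f U K Cr ℓ δ₀ Cp rp c₀ μ S
  obtain ⟨ϱ, hϱ, hsh⟩ := hS f U K Cr ℓ δ₀ Cp rp c₀ μ S
  refine ⟨ϱ / 2, by linarith, fun η hη => ?_⟩
  obtain ⟨N, hN⟩ := hsh η hη
  refine ⟨N, fun n hn z hz hzη => ?_⟩
  by_contra hcon
  push Not at hcon
  have hKc : IsClosed K := S.cpt.isClosed
  have hfr : frontier K = K \ interior K := hKc.frontier_eq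
  have hne : (frontier K).Nonempty := by
    rcases (frontier K).eq_empty_or_nonempty with h | h
    · rw [h, infDist_empty] at hzη; linarith
    · exact h
  have hfc : IsCompact (frontier K) := S.cpt.of_isClosed_subset isClosed_frontier hKc.frontier_subset
  set w := f^[n] z with hw
  have hwI : w ∈ interior K := iter_int h3 hz n
  set d := infDist w (frontier K) with hd
  have hdpos : 0 < d := by
    have : w ∉ frontier K := by rw [hfr]; exact fun h => h.2 hwI
    exact (isClosed_frontier.notMem_iff_infDist_pos hne).1 this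
  have hball : ball w d ⊆ interior K := by
    have hpc : IsPreconnected (ball w d) := (convex_ball w d).isPreconnected
    refine hpc.subset_left_of_subset_union isOpen_interior hKc.isOpen_compl ?_ ?_ ?_
    · exact Set.disjoint_left.2 fun x hx hx' => hx' (interior_subset hx)
    · intro x hx
      by_cases hxK : x ∈ K
      · left
        by_contra hxI
        have hxf : x ∈ frontier K := by rw [hfr]; exact ⟨hxK, hxI⟩
        have := infDist_le_dist_of_mem (x := w) hxf
        rw [mem_ball, dist_comm] at hx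
        linarith
      · exact Or.inr hxK
    · exact ⟨w, mem_ball_self hdpos, hwI⟩
  obtain ⟨g, g1, g2, g3⟩ := branch S h2 h3 h4 hz n hdpos hball n le_rfl
  rw [← hw] at g1 g2 g3
  simp only [Nat.sub_self, Function.iterate_zero, id_eq] at g2
  obtain ⟨x, hx, hxd⟩ := hfc.exists_infDist_eq_dist hne w
  -- the points `w_k`
  let t : ℕ → ℝ := fun k => 1 - 1 / ((k : ℝ) + 1)
  have ht : ∀ k, 0 ≤ t k ∧ t k < 1 := by
    intro k
    have h1 : (0 : ℝ) < 1 / ((k : ℝ) + 1) := by positivity
    have h2 : 1 / ((k : ℝ) + 1) ≤ 1 := by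
      rw [div_le_one (by positivity)]; linarith [Nat.cast_nonneg (α := ℝ) k]
    exact ⟨by simp only [t]; linarith, by simp only [t]; linarith⟩
  have httend : Tendsto t atTop (𝓝 1) := by
    have := (tendsto_const_nhds (x := (1 : ℝ))).sub tendsto_one_div_add_atTop_nhds_zero_nat
    rw [sub_zero] at this
    exact this
  let v : ℕ → ℂ := fun k => w + (t k : ℂ) * (x - w)
  have hv : ∀ k, v k ∈ ball w d := by
    intro k
    rw [mem_ball, dist_eq_norm]
    have : v k - w = (t k : ℂ) * (x - w) := by simp [v]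
    rw [this, norm_mul, Complex.norm_real, Real.norm_eq_abs, abs_of_nonneg (ht k).1,
      ← dist_eq_norm, dist_comm, ← hxd]
    nlinarith [(ht k).2]
  have hvtend : Tendsto v atTop (𝓝 x) := by
    have h5 : Tendsto (fun k => (t k : ℂ)) atTop (𝓝 ((1 : ℝ) : ℂ)) :=
      (Complex.continuous_ofReal.tendsto 1).comp httend
    have := (tendsto_const_nhds (x := w)).add (h5.mul (tendsto_const_nhds (x := x - w)))
    simpa [v] using this
  have hgK : ∀ k, g (v k) ∈ K := fun k => interior_subset (g3 _ (hv k)).1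
  obtain ⟨z', hz'K, φ, hφ, hlim⟩ := S.cpt.tendsto_subseq hgK
  have hfz' : f^[n] z' = x := by
    have l1 : Tendsto (fun k => f^[n] (g (v (φ k)))) atTop (𝓝 (f^[n] z')) :=
      (iter_cont S hz'K n).tendsto.comp hlim
    have l2 : Tendsto (fun k => f^[n] (g (v (φ k)))) atTop (𝓝 x) := by
      have : (fun k => f^[n] (g (v (φ k)))) = fun k => v (φ k) := by
        funext k; exact (g3 _ (hv _)).2
      rw [this]; exact hvtend.comp hφ.tendsto_atTop
    exact tendsto_nhds_unique l1 l2
  have hz'f : z' ∈ frontier K := by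
    rw [hfr]
    refine ⟨hz'K, fun hI => ?_⟩
    have : x ∈ interior K := hfz' ▸ iter_int h3 hI n
    rw [hfr] at hx
    exact hx.2 this
  let V : Set ℂ := insert z' (g '' ball w d)
  have hVK : V ⊆ K := by
    rintro y (rfl | ⟨u, hu, rfl⟩)
    · exact hz'K
    · exact interior_subset (g3 u hu).1
  have hC : Conn f U n z' ϱ V := by
    refine ⟨?_, mem_insert _ _, fun i _ y hy => K_subset_U S (iter_mem S (hVK hy) i), ?_⟩
    · have hp : IsPreconnected (g '' ball w d) :=
        (convex_ball w d).isPreconnected.image g g1.continuousOn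
      refine hp.subset_closure (subset_insert _ _) ?_
      rintro y (rfl | hy)
      · exact mem_closure_of_tendsto hlim (Eventually.of_forall fun k => mem_image_of_mem g (hv _))
      · exact subset_closure hy
    · rintro y (rfl | ⟨u, hu, rfl⟩)
      · exact mem_ball_self hϱ
      · rw [hfz', (g3 u hu).2, mem_ball]
        rw [mem_ball] at hu
        have := dist_triangle u w x
        linarith
  have hV := hN n hn z' hz'f V hC
  have hzV : z ∈ V := Or.inr ⟨w, mem_ball_self hdpos, g2⟩
  have h6 := hV hzV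
  rw [mem_ball] at h6
  have h7 := infDist_le_dist_of_mem (x := z) hz'f
  linarith

end Pool.Agent.H348.AD211
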